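import Mathlib

/-!
The `1/2`-reaping number equals the `(0,1)`-reaping number.
-/

namespace Pool.Agent.Results.MP_5d23e6_lc.HalfReaping

open Filter Topology Set Cardinal

/-! ### Definitions -/

/-- The number of elements of `A` below `n`. -/
noncomputable def cnt (A : Set ℕ) (n : ℕ) : ℕ := (A ∩ Set.Iio n).ncard

/-- `|A ∩ B ∩ n| / |B ∩ n|`. -/
noncomputable def ratio (B A : Set ℕ) (n : ℕ) : ℝ := (cnt (A ∩ B) n : ℝ) / cnt B n

/-- The lower relative density of `A` in `B`. -/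
noncomputable def lowerD (B A : Set ℕ) : ℝ := Filter.liminf (ratio B A) atTop

/-- The upper relative density of `A` in `B`. -/
noncomputable def upperD (B A : Set ℕ) : ℝ := Filter.limsup (ratio B A) atTop

open Classical in
/-- The relative density `d_B(A)`, an element of `all`: `some ρ` when the lower and the upper
densities agree with common value `ρ`, and `none` (that is, `osc`) otherwise. -/
noncomputable def dens (B A : Set ℕ) : Option ℝ :=
  if lowerD B A = upperD B A then some (lowerD B A) else none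

/-- The `X`-reaping number, for `X` a set of elements of `all`. -/
noncomputable def reaping (X : Set (Option ℝ)) : Cardinal.{0} :=
  sInf {κ | ∃ R : Set (Set ℕ), (∀ B ∈ R, B.Infinite) ∧
    (∀ S : Set ℕ, S.Infinite → Sᶜ.Infinite → ∃ B ∈ R, dens B S ∉ X) ∧ #R = κ}

/-! ### Counting -/

theorem fin_inter (A : Set ℕ) (n : ℕ) : (A ∩ Set.Iio n).Finite :=
  (Set.finite_Iio n).inter_of_right A

theorem cnt_le (A : Set ℕ) (n : ℕ) : cnt A n ≤ n := by
  have := Set.ncard_le_ncard (Set.inter_subset_right : A ∩ Set.Iio n ⊆ Set.Iio n)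
    (Set.finite_Iio n)
  rwa [Set.ncard_Iio_nat] at this

theorem cnt_mono_set {A B : Set ℕ} (h : A ⊆ B) (n : ℕ) : cnt A n ≤ cnt B n :=
  Set.ncard_le_ncard (Set.inter_subset_inter_left _ h) (fin_inter B n)

theorem cnt_mono (A : Set ℕ) {m n : ℕ} (h : m ≤ n) : cnt A m ≤ cnt A n :=
  Set.ncard_le_ncard (Set.inter_subset_inter_right _ (Set.Iio_subset_Iio h)) (fin_inter A n)

theorem cnt_union {A B : Set ℕ} (h : Disjoint A B) (n : ℕ) :
    cnt (A ∪ B) n = cnt A n + cnt B n := by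
  rw [cnt, Set.union_inter_distrib_right]
  exact Set.ncard_union_eq (h.mono Set.inter_subset_left Set.inter_subset_left)
    (fin_inter A n) (fin_inter B n)

theorem cnt_succ (A : Set ℕ) (n : ℕ) [Decidable (n ∈ A)] :
    cnt A (n + 1) = cnt A n + if n ∈ A then 1 else 0 := by
  have h1 : A ∩ Set.Iio (n + 1) = (A ∩ Set.Iio n) ∪ (A ∩ {n}) := by
    ext x
    simp only [Set.mem_inter_iff, Set.mem_Iio, Set.mem_union, Set.mem_singleton_iff]
    constructor
    · rintro ⟨hA, hx⟩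
      rcases Nat.lt_succ_iff_lt_or_eq.1 hx with h | h
      · exact Or.inl ⟨hA, h⟩
      · exact Or.inr ⟨hA, h⟩
    · rintro (⟨hA, hx⟩ | ⟨hA, hx⟩)
      · exact ⟨hA, by omega⟩
      · exact ⟨hA, by omega⟩
  rw [cnt, h1, Set.ncard_union_eq _ (fin_inter A n) ((Set.finite_singleton n).inter_of_right A)]
  · congr 1
    split_ifs with h
    · rw [Set.inter_eq_self_of_subset_right (Set.singleton_subset_iff.2 h), Set.ncard_singleton]
    · have : A ∩ {n} = ∅ := by
        ext x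
        simp only [Set.mem_inter_iff, Set.mem_singleton_iff, Set.mem_empty_iff_false, iff_false]
        rintro ⟨hA, rfl⟩
        exact h hA
      rw [this, Set.ncard_empty]
  · rw [Set.disjoint_left]
    rintro x ⟨-, hx⟩ ⟨-, hx'⟩
    have h2 : x = n := hx'
    have h3 : x < n := hx
    omega

theorem cnt_tendsto {B : Set ℕ} (hB : B.Infinite) : Tendsto (cnt B) atTop atTop := by
  apply tendsto_atTop_atTop_of_monotone (fun m n h => cnt_mono B h)
  intro b
  obtain ⟨t, ht, htf, htc⟩ := hB.exists_subset_ncard_eq b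
  obtain ⟨N, hN⟩ := htf.bddAbove
  refine ⟨N + 1, ?_⟩
  rw [← htc]
  apply Set.ncard_le_ncard _ (fin_inter B _)
  intro x hx
  exact ⟨ht hx, Nat.lt_succ_of_le (hN hx)⟩

/-! ### Densities -/

/-- `A` has relative density `ρ` in `B`. -/
def D (B A : Set ℕ) (ρ : ℝ) : Prop := Tendsto (ratio B A) atTop (𝓝 ρ)

theorem ratio_nonneg (B A : Set ℕ) (n : ℕ) : 0 ≤ ratio B A n := by
  unfold ratio; positivity

theorem ratio_le_one (B A : Set ℕ) (n : ℕ) : ratio B A n ≤ 1 := by
  unfold ratio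
  apply div_le_one_of_le₀
  · exact_mod_cast cnt_mono_set Set.inter_subset_right n
  · positivity

theorem dens_eq_some {B A : Set ℕ} {ρ : ℝ} : dens B A = some ρ ↔ D B A ρ := by
  have hb1 : IsBoundedUnder (· ≤ ·) atTop (ratio B A) :=
    isBoundedUnder_of ⟨1, fun n => ratio_le_one B A n⟩
  have hb2 : IsBoundedUnder (· ≥ ·) atTop (ratio B A) :=
    isBoundedUnder_of ⟨0, fun n => ratio_nonneg B A n⟩
  unfold dens
  constructor
  · intro h
    split_ifs at h with h1
    · have h2 : lowerD B A = ρ := Option.some.inj h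
      have h3 : upperD B A = ρ := h1.symm.trans h2
      exact tendsto_of_liminf_eq_limsup h2 h3 hb1 hb2
  · intro h
    have h1 : lowerD B A = ρ := h.liminf_eq
    have h2 : upperD B A = ρ := h.limsup_eq
    rw [if_pos (h1.trans h2.symm), h1]

theorem D.nonneg {B A : Set ℕ} {ρ : ℝ} (h : D B A ρ) : 0 ≤ ρ :=
  ge_of_tendsto' h fun n => ratio_nonneg B A n

theorem D.infinite_inter {B A : Set ℕ} {ρ : ℝ} (hB : B.Infinite) (h : D B A ρ) (hρ : 0 < ρ) :
    (A ∩ B).Infinite := by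
  intro hfin
  have h1 : Tendsto (ratio B A) atTop (𝓝 0) := by
    have h2 : Tendsto (fun n => ((A ∩ B).ncard : ℝ) / cnt B n) atTop (𝓝 0) :=
      tendsto_const_nhds.div_atTop (tendsto_natCast_atTop_atTop.comp (cnt_tendsto hB))
    refine squeeze_zero (fun n => ratio_nonneg B A n) (fun n => ?_) h2
    unfold ratio
    apply div_le_div_of_nonneg_right _ (by positivity)
    exact_mod_cast Set.ncard_le_ncard Set.inter_subset_left hfin
  have := tendsto_nhds_unique h h1
  linarith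

theorem D.union {B A C : Set ℕ} {ρ σ : ℝ} (hAC : Disjoint A C) (hA : D B A ρ) (hC : D B C σ) :
    D B (A ∪ C) (ρ + σ) := by
  refine (Filter.Tendsto.add hA hC).congr fun n => ?_
  unfold ratio
  rw [Set.union_inter_distrib_right, cnt_union (hAC.mono Set.inter_subset_left
    Set.inter_subset_left)]
  push_cast
  ring

theorem D.inter {B A C : Set ℕ} {ρ σ : ℝ} (hA : D B A ρ) (hC : D (A ∩ B) C σ) :
    D B (A ∩ C) (ρ * σ) := by
  refine (Filter.Tendsto.mul hA hC).congr fun n => ?_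
  unfold ratio
  have h1 : C ∩ (A ∩ B) = A ∩ C ∩ B := by
    ext x
    simp only [Set.mem_inter_iff]
    tauto
  rw [h1]
  by_cases h : cnt (A ∩ B) n = 0
  · have h2 : cnt (A ∩ C ∩ B) n = 0 := by
      have := cnt_mono_set (show A ∩ C ∩ B ⊆ A ∩ B from fun x hx => ⟨hx.1.1, hx.2⟩) n
      omega
    rw [h, h2]
    simp
  · have h3 : (cnt (A ∩ B) n : ℝ) ≠ 0 := by exact_mod_cast h
    by_cases h4 : (cnt B n : ℝ) = 0
    · rw [h4]; simp
    · field_simp

theorem D.compl {B A : Set ℕ} {ρ : ℝ} (hB : B.Infinite) (hA : D B A ρ) : D B Aᶜ (1 - ρ) := by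
  refine (tendsto_const_nhds.sub hA).congr' ?_
  filter_upwards [(cnt_tendsto hB).eventually (Filter.eventually_gt_atTop 0)] with n hn
  unfold ratio
  have h1 : B = (A ∩ B) ∪ (Aᶜ ∩ B) := by
    rw [← Set.union_inter_distrib_right, Set.union_compl_self, Set.univ_inter]
  have h2 : cnt B n = cnt (A ∩ B) n + cnt (Aᶜ ∩ B) n := by
    conv_lhs => rw [h1]
    exact cnt_union (disjoint_compl_right.mono Set.inter_subset_left Set.inter_subset_left) n
  have h3 : (cnt B n : ℝ) ≠ 0 := by exact_mod_cast hn.ne'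
  have h4 : (cnt B n : ℝ) = cnt (A ∩ B) n + cnt (Aᶜ ∩ B) n := by exact_mod_cast h2
  field_simp
  linarith

/-! ### Merging two sets -/

theorem cnt_agree {M R : Set ℕ} {e N : ℕ} (h : ∀ x, e ≤ x → x < N → (x ∈ M ↔ x ∈ R)) :
    (cnt M N : ℝ) ≤ cnt R N + e := by
  have h1 : M ∩ Set.Iio N ⊆ (R ∩ Set.Iio N) ∪ Set.Iio e := by
    rintro x ⟨hx, hxN⟩
    by_cases hxe : x < e
    · exact Or.inr hxe
    · exact Or.inl ⟨(h x (not_lt.1 hxe) hxN).1 hx, hxN⟩
  have h2 := Set.ncard_le_ncard h1 ((fin_inter R N).union (Set.finite_Iio e))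
  have h3 := Set.ncard_union_le (R ∩ Set.Iio N) (Set.Iio e)
  rw [Set.ncard_Iio_nat] at h3
  have : cnt M N ≤ cnt R N + e := h2.trans h3
  exact_mod_cast this

theorem ratio_close {M R S : Set ℕ} {e N : ℕ} (h : ∀ x, e ≤ x → x < N → (x ∈ M ↔ x ∈ R))
    (hpos : 0 < cnt R N) : |ratio R S N - ratio M S N| ≤ 2 * e / cnt R N := by
  have hS : ∀ x, e ≤ x → x < N → (x ∈ S ∩ M ↔ x ∈ S ∩ R) := fun x hx hxN => by
    simp only [Set.mem_inter_iff, h x hx hxN]
  have hM := cnt_agree h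
  have hM' := cnt_agree (fun x hx hxN => (h x hx hxN).symm)
  have hSM := cnt_agree hS
  have hSM' := cnt_agree (fun x hx hxN => (hS x hx hxN).symm)
  have hle : (cnt (S ∩ M) N : ℝ) ≤ cnt M N := by
    exact_mod_cast cnt_mono_set Set.inter_subset_right N
  have hb : (0 : ℝ) < cnt R N := by exact_mod_cast hpos
  have key : ratio R S N - ratio M S N =
      ((cnt (S ∩ R) N - cnt (S ∩ M) N) + ratio M S N * (cnt M N - cnt R N)) / cnt R N := by
    have h5 : ratio M S N * cnt M N = cnt (S ∩ M) N := by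
      unfold ratio
      by_cases h0 : (cnt M N : ℝ) = 0
      · rw [h0] at hle ⊢
        have : (cnt (S ∩ M) N : ℝ) = 0 := le_antisymm hle (by positivity)
        rw [this]; simp
      · field_simp
    rw [mul_sub, h5]
    unfold ratio
    field_simp
    ring
  rw [key, abs_div, abs_of_pos hb]
  apply div_le_div_of_nonneg_right _ hb.le
  have h1 := ratio_nonneg M S N
  have h2 := ratio_le_one M S N
  rw [abs_le]
  have e0 : (0 : ℝ) ≤ e := by positivity
  constructor
  · nlinarith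
  · nlinarith

theorem bound_aux {k e c : ℕ} (h : (k + 2) * (e + 1) ≤ c) :
    2 * (e : ℝ) / c ≤ 2 / (k + 2) := by
  have hpos : 0 < c := by nlinarith
  have h5 : (0 : ℝ) < c := by exact_mod_cast hpos
  rw [div_le_div_iff₀ h5 (by positivity)]
  have h6 : ((k : ℝ) + 2) * ((e : ℝ) + 1) ≤ c := by exact_mod_cast h
  nlinarith

theorem exists_merge {R R' : Set ℕ} (hR : R.Infinite) (hR' : R'.Infinite) :
    ∃ M : Set ℕ, M.Infinite ∧ ∀ S : Set ℕ, ∀ ρ ρ' σ : ℝ, D R S ρ → D R' S ρ' → D M S σ →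
      ρ = σ ∧ ρ' = σ := by
  have hstep : ∀ k e : ℕ, ∃ N, e < N ∧ (k + 2) * (e + 1) ≤ cnt R N ∧
      (k + 2) * (e + 1) ≤ cnt R' N := by
    intro k e
    obtain ⟨N, ⟨h1, h2⟩, h3⟩ := (((cnt_tendsto hR).eventually
      (Filter.eventually_ge_atTop ((k + 2) * (e + 1)))).and ((cnt_tendsto hR').eventually
      (Filter.eventually_ge_atTop ((k + 2) * (e + 1)))) |>.and
      (Filter.eventually_gt_atTop e)).exists
    exact ⟨N, h3, h1, h2⟩
  choose F hF1 hF2 hF3 using hstep
  let n : ℕ → ℕ := fun k => Nat.rec 0 (fun k e => F k e) k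
  have hns : ∀ k, n (k + 1) = F k (n k) := fun k => rfl
  have hlt : ∀ k, n k < n (k + 1) := fun k => by rw [hns]; exact hF1 _ _
  have hmono : StrictMono n := strictMono_nat_of_lt_succ hlt
  have hR1 : ∀ k, (k + 2) * (n k + 1) ≤ cnt R (n (k + 1)) := fun k => by
    rw [hns]; exact hF2 _ _
  have hR2 : ∀ k, (k + 2) * (n k + 1) ≤ cnt R' (n (k + 1)) := fun k => by
    rw [hns]; exact hF3 _ _
  let M : Set ℕ := {x | ∃ k, n k ≤ x ∧ x < n (k + 1) ∧ ((Even k ∧ x ∈ R) ∨ (¬ Even k ∧ x ∈ R'))}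
  have huniq : ∀ k l x, n k ≤ x → x < n (k + 1) → n l ≤ x → x < n (l + 1) → k = l := by
    intro k l x h1 h2 h3 h4
    have h5 : k < l + 1 := hmono.lt_iff_lt.1 (lt_of_le_of_lt h1 h4)
    have h6 : l < k + 1 := hmono.lt_iff_lt.1 (lt_of_le_of_lt h3 h2)
    omega
  have hMe : ∀ k, Even k → ∀ x, n k ≤ x → x < n (k + 1) → (x ∈ M ↔ x ∈ R) := by
    intro k hk x h1 h2
    constructor
    · rintro ⟨l, h3, h4, h5⟩
      have := huniq k l x h1 h2 h3 h4
      subst this
      rcases h5 with h5 | h5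
      · exact h5.2
      · exact absurd hk h5.1
    · intro hx
      exact ⟨k, h1, h2, Or.inl ⟨hk, hx⟩⟩
  have hMo : ∀ k, ¬ Even k → ∀ x, n k ≤ x → x < n (k + 1) → (x ∈ M ↔ x ∈ R') := by
    intro k hk x h1 h2
    constructor
    · rintro ⟨l, h3, h4, h5⟩
      have := huniq k l x h1 h2 h3 h4
      subst this
      rcases h5 with h5 | h5
      · exact absurd h5.1 hk
      · exact h5.2
    · intro hx
      exact ⟨k, h1, h2, Or.inr ⟨hk, hx⟩⟩
  have hMinf : M.Infinite := by
    intro hfin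
    obtain ⟨b, hb⟩ := hfin.bddAbove
    -- some even block beyond `b` contains an element of `R`
    have h1 : ∃ x ∈ R, n (2 * (b + 1)) ≤ x ∧ x < n (2 * (b + 1) + 1) := by
      by_contra hcon
      push Not at hcon
      have h2 : R ∩ Set.Iio (n (2 * (b + 1) + 1)) ⊆ Set.Iio (n (2 * (b + 1))) := by
        rintro x ⟨hx, hx2⟩
        by_contra hlt
        exact absurd (hcon x hx (not_lt.1 hlt)) (not_le.2 hx2)
      have h3 := Set.ncard_le_ncard h2 (Set.finite_Iio _)
      rw [Set.ncard_Iio_nat] at h3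
      have h4 := hR1 (2 * (b + 1))
      have h5 : cnt R (n (2 * (b + 1) + 1)) ≤ n (2 * (b + 1)) := h3
      nlinarith
    obtain ⟨x, hx, hx1, hx2⟩ := h1
    have h3 : x ∈ M := (hMe _ (by simp) x hx1 hx2).2 hx
    have h4 := hb h3
    have h5 := hmono.id_le (2 * (b + 1))
    simp only [id] at h5
    omega
  refine ⟨M, hMinf, ?_⟩
  intro S ρ ρ' σ h1 h2 h3
  have hto : Tendsto (fun k : ℕ => (2 : ℝ) / (k + 2)) atTop (𝓝 0) := by
    apply tendsto_const_nhds.div_atTop
    exact tendsto_atTop_add_const_right _ _ tendsto_natCast_atTop_atTop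
  have hbound : ∀ (Q : Set ℕ) (k : ℕ), (k + 2) * (n k + 1) ≤ cnt Q (n (k + 1)) →
      (∀ x, n k ≤ x → x < n (k + 1) → (x ∈ M ↔ x ∈ Q)) →
      |ratio Q S (n (k + 1)) - ratio M S (n (k + 1))| ≤ 2 / (k + 2) := by
    intro Q k hQ hagree
    have hpos : 0 < cnt Q (n (k + 1)) := by nlinarith
    exact (ratio_close hagree hpos).trans (bound_aux hQ)
  have ht0 : Tendsto (fun j : ℕ => 2 * j) atTop atTop :=
    tendsto_atTop_mono (fun j => (by omega : j ≤ 2 * j)) tendsto_id
  have ht1 : Tendsto (fun j : ℕ => 2 * j + 1) atTop atTop :=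
    tendsto_atTop_mono (fun j => (by omega : j ≤ 2 * j + 1)) tendsto_id
  have ht2 : Tendsto (fun j : ℕ => 2 * j + 1 + 1) atTop atTop :=
    tendsto_atTop_mono (fun j => (by omega : j ≤ 2 * j + 1 + 1)) tendsto_id
  have hsub1 : Tendsto (fun j : ℕ => n (2 * j + 1)) atTop atTop :=
    hmono.tendsto_atTop.comp ht1
  have hsub2 : Tendsto (fun j : ℕ => n (2 * j + 1 + 1)) atTop atTop :=
    hmono.tendsto_atTop.comp ht2
  constructor
  · have h4 : Tendsto (fun j : ℕ => ratio R S (n (2 * j + 1)) - ratio M S (n (2 * j + 1)))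
        atTop (𝓝 0) := by
      have h5 : Tendsto (fun j : ℕ => (2 : ℝ) / ((2 * j : ℕ) + 2)) atTop (𝓝 0) :=
        hto.comp ht0
      apply squeeze_zero_norm (fun j => ?_) h5
      rw [Real.norm_eq_abs]
      exact hbound R (2 * j) (hR1 _) (hMe _ (by simp))
    have h5 := (h1.comp hsub1).sub (h3.comp hsub1)
    have := tendsto_nhds_unique h4 h5
    linarith
  · have h4 : Tendsto (fun j : ℕ => ratio R' S (n (2 * j + 1 + 1)) - ratio M S (n (2 * j + 1 + 1)))
        atTop (𝓝 0) := by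
      have h5 : Tendsto (fun j : ℕ => (2 : ℝ) / ((2 * j + 1 : ℕ) + 2)) atTop (𝓝 0) :=
        hto.comp ht1
      apply squeeze_zero_norm (fun j => ?_) h5
      rw [Real.norm_eq_abs]
      exact hbound R' (2 * j + 1) (hR2 _) (hMo _ (by
        rw [Nat.not_even_iff_odd]; exact odd_two_mul_add_one j))
    have h5 := (h2.comp hsub2).sub (h3.comp hsub2)
    have := tendsto_nhds_unique h4 h5
    linarith

/-! ### Families below the `(0,1)`-reaping number -/

/-- `κ` is small: every family of at most `κ` infinite sets is split with densities in `(0,1)`. -/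
def Small (κ : Cardinal.{0}) : Prop :=
  ∀ R : Set (Set ℕ), (∀ B ∈ R, B.Infinite) → #R ≤ κ →
    ∃ S : Set ℕ, ∀ B ∈ R, ∃ ρ : ℝ, 0 < ρ ∧ ρ < 1 ∧ D B S ρ

theorem const_density {κ : Cardinal.{0}} (hκ : ℵ₀ ≤ κ) (hs : Small κ) (R : Set (Set ℕ))
    (hR : ∀ B ∈ R, B.Infinite) (hc : #R ≤ κ) :
    ∃ S : Set ℕ, ∃ ρ : ℝ, 0 < ρ ∧ ρ < 1 ∧ ∀ B ∈ R, D B S ρ := by
  classical
  rcases R.eq_empty_or_nonempty with rfl | ⟨B0, hB0⟩
  · exact ⟨∅, 1 / 2, by norm_num, by norm_num, fun B hB => hB.elim⟩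
  · choose! M hM1 hM2 using fun (B : Set ℕ) (hB : B.Infinite) => exists_merge hB (hR B0 hB0)
    obtain ⟨S, hS⟩ := hs (R ∪ M '' R) (by
      rintro B (hB | ⟨C, hC, rfl⟩)
      · exact hR B hB
      · exact hM1 C (hR C hC)) (by
      refine (mk_union_le _ _).trans ?_
      refine (add_le_add hc (mk_image_le.trans hc)).trans ?_
      rw [add_eq_self hκ])
    obtain ⟨ρ, h0, h1, hρ⟩ := hS B0 (Or.inl hB0)
    refine ⟨S, ρ, h0, h1, fun B hB => ?_⟩
    obtain ⟨ρ', -, -, hρ'⟩ := hS B (Or.inl hB)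
    obtain ⟨σ, -, -, hσ⟩ := hS (M B) (Or.inr ⟨B, hB, rfl⟩)
    obtain ⟨e1, e2⟩ := hM2 B (hR B hB) S ρ' ρ σ hρ' hρ hσ
    rw [e2, ← e1]
    exact hρ'

theorem bounded_density {κ : Cardinal.{0}} (hκ : ℵ₀ ≤ κ) (hs : Small κ) :
    ∃ δ : ℝ, 0 < δ ∧ δ < 1 ∧ ∀ R : Set (Set ℕ), (∀ B ∈ R, B.Infinite) → #R ≤ κ →
      ∃ S : Set ℕ, ∃ ρ : ℝ, δ ≤ ρ ∧ ρ ≤ 1 - δ ∧ ∀ B ∈ R, D B S ρ := by
  by_contra hcon
  push Not at hcon
  have h1 : ∀ n : ℕ, ∃ R : Set (Set ℕ), (∀ B ∈ R, B.Infinite) ∧ #R ≤ κ ∧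
      ∀ (S : Set ℕ) (ρ : ℝ), 1 / ((n : ℝ) + 2) ≤ ρ → ρ ≤ 1 - 1 / ((n : ℝ) + 2) →
        ∃ B ∈ R, ¬ D B S ρ := by
    intro n
    exact hcon _ (by positivity) (by
      rw [div_lt_one (by positivity)]
      have : (0 : ℝ) ≤ n := by positivity
      linarith)
  choose R hR hRc hRS using h1
  obtain ⟨S, ρ, h0, h1, hρ⟩ := const_density hκ hs (⋃ n, R n) (by
    intro B hB
    obtain ⟨n, hn⟩ := Set.mem_iUnion.1 hB
    exact hR n B hn) (by
    refine (mk_iUnion_le _).trans ?_
    rw [mk_nat]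
    refine (mul_le_mul' le_rfl (ciSup_le' hRc)).trans ?_
    rw [aleph0_mul_eq hκ])
  obtain ⟨n, hn⟩ := exists_nat_gt (1 / min ρ (1 - ρ))
  have hm : 0 < min ρ (1 - ρ) := lt_min h0 (by linarith)
  have hn' : 1 / ((n : ℝ) + 2) ≤ min ρ (1 - ρ) := by
    rw [div_le_iff₀ (by positivity)]
    rw [div_lt_iff₀ hm] at hn
    nlinarith
  obtain ⟨B, hB, hBD⟩ := hRS n S ρ (hn'.trans (min_le_left _ _)) (by
    have := hn'.trans (min_le_right _ _)
    linarith)
  exact hBD (hρ B (Set.mem_iUnion_of_mem n hB))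

/-- The state of the recursion: an accepted set, an undecided set and their densities. -/
structure St (R : Set (Set ℕ)) : Type where
  L : Set ℕ
  Q : Set ℕ
  l : ℝ
  q : ℝ
  disj : Disjoint L Q
  qpos : 0 < q
  hl : l ≤ 1 / 2
  hlq : 1 / 2 ≤ l + q
  dL : ∀ B ∈ R, D B L l
  dQ : ∀ B ∈ R, D B Q q

theorem exists_next {κ : Cardinal.{0}} {δ : ℝ} (hδ0 : 0 < δ)
    (hδ : ∀ R : Set (Set ℕ), (∀ B ∈ R, B.Infinite) → #R ≤ κ →
      ∃ S : Set ℕ, ∃ ρ : ℝ, δ ≤ ρ ∧ ρ ≤ 1 - δ ∧ ∀ B ∈ R, D B S ρ)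
    {R : Set (Set ℕ)} (hR : ∀ B ∈ R, B.Infinite) (hc : #R ≤ κ) (s : St R) :
    ∃ t : St R, s.L ⊆ t.L ∧ t.L ∪ t.Q ⊆ s.L ∪ s.Q ∧ t.q ≤ (1 - δ) * s.q := by
  obtain ⟨S, ρ, h1, h2, hS⟩ := hδ ((fun B => s.Q ∩ B) '' R) (by
    rintro _ ⟨B, hB, rfl⟩
    exact (s.dQ B hB).infinite_inter (hR B hB) s.qpos) (mk_image_le.trans hc)
  have hA : ∀ B ∈ R, D B (s.Q ∩ S) (s.q * ρ) := fun B hB =>
    (s.dQ B hB).inter (hS _ ⟨B, hB, rfl⟩)
  have hB : ∀ B ∈ R, D B (s.Q ∩ Sᶜ) (s.q * (1 - ρ)) := fun B hB =>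
    (s.dQ B hB).inter ((hS _ ⟨B, hB, rfl⟩).compl
      ((s.dQ B hB).infinite_inter (hR B hB) s.qpos))
  have hq := s.qpos
  have hρ0 : 0 < ρ := by linarith
  have hρ1 : 0 < 1 - ρ := by linarith
  by_cases h : s.l + s.q * ρ ≤ 1 / 2
  · refine ⟨⟨s.L ∪ (s.Q ∩ S), s.Q ∩ Sᶜ, s.l + s.q * ρ, s.q * (1 - ρ), ?_, by positivity, h, ?_,
      fun B hB' => (s.dL B hB').union (s.disj.mono_right Set.inter_subset_left) (hA B hB'), hB⟩,
      Set.subset_union_left, ?_, ?_⟩
    · rw [Set.disjoint_union_left]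
      refine ⟨s.disj.mono_right Set.inter_subset_left, ?_⟩
      rw [Set.disjoint_left]
      rintro x ⟨-, hx⟩ ⟨-, hx'⟩
      exact hx' hx
    · have := s.hlq
      nlinarith
    · rintro x ((hx | hx) | hx)
      · exact Or.inl hx
      · exact Or.inr hx.1
      · exact Or.inr hx.1
    · show s.q * (1 - ρ) ≤ (1 - δ) * s.q
      nlinarith
  · refine ⟨⟨s.L, s.Q ∩ S, s.l, s.q * ρ, s.disj.mono_right Set.inter_subset_left, by positivity,
      s.hl, (not_le.1 h).le, s.dL, hA⟩, subset_rfl, ?_, ?_⟩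
    · rintro x (hx | hx)
      · exact Or.inl hx
      · exact Or.inr hx.1
    · show s.q * ρ ≤ (1 - δ) * s.q
      nlinarith

theorem half_of_small {κ : Cardinal.{0}} (hκ : ℵ₀ ≤ κ) (hs : Small κ) (R : Set (Set ℕ))
    (hR : ∀ B ∈ R, B.Infinite) (hc : #R ≤ κ) : ∃ S : Set ℕ, ∀ B ∈ R, D B S (1 / 2) := by
  obtain ⟨δ, hδ0, hδ1, hδ⟩ := bounded_density hκ hs
  have hD0 : ∀ B ∈ R, D B ∅ 0 := by
    intro B _
    refine tendsto_const_nhds.congr fun n => ?_
    simp [ratio, cnt]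
  have hD1 : ∀ B ∈ R, D B Set.univ 1 := by
    intro B hB
    have := (hD0 B hB).compl (hR B hB)
    rwa [Set.compl_empty, sub_zero] at this
  let s0 : St R := ⟨∅, Set.univ, 0, 1, Set.empty_disjoint _, one_pos, by norm_num, by norm_num,
    hD0, hD1⟩
  choose nx hn1 hn2 hn3 using fun s : St R => exists_next hδ0 hδ hR hc s
  let s : ℕ → St R := fun n => Nat.rec s0 (fun _ t => nx t) n
  have hss : ∀ n, s (n + 1) = nx (s n) := fun n => rfl
  have hL : ∀ n k, (s n).L ⊆ (s (n + k)).L := by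
    intro n k
    induction k with
    | zero => exact subset_rfl
    | succ k ih =>
      refine ih.trans ?_
      rw [← add_assoc, hss]
      exact hn1 _
  have hLQ : ∀ n k, (s (n + k)).L ⊆ (s n).L ∪ (s n).Q := by
    intro n k
    have : (s (n + k)).L ∪ (s (n + k)).Q ⊆ (s n).L ∪ (s n).Q := by
      induction k with
      | zero => exact subset_rfl
      | succ k ih =>
        refine Set.Subset.trans ?_ ih
        rw [← add_assoc, hss]
        exact hn2 _
    exact Set.subset_union_left.trans this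
  have hq : ∀ n, (s n).q ≤ (1 - δ) ^ n := by
    intro n
    induction n with
    | zero => simp [s, s0]
    | succ n ih =>
      rw [hss]
      refine (hn3 _).trans ?_
      rw [pow_succ, mul_comm]
      exact mul_le_mul_of_nonneg_right ih (by linarith)
  have hq0 : Tendsto (fun n => (s n).q) atTop (𝓝 0) :=
    squeeze_zero (fun n => (s n).qpos.le) hq
      (tendsto_pow_atTop_nhds_zero_of_lt_one (by linarith) (by linarith))
  let S : Set ℕ := ⋃ n, (s n).L
  have hS1 : ∀ n, (s n).L ⊆ S := fun n => Set.subset_iUnion (fun n => (s n).L) n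
  have hS2 : ∀ n, S ⊆ (s n).L ∪ (s n).Q := by
    intro n x hx
    obtain ⟨m, hm⟩ := Set.mem_iUnion.1 hx
    have h1 := hL m n hm
    rw [add_comm] at h1
    exact hLQ n m h1
  refine ⟨S, fun B hB => ?_⟩
  rw [D, Metric.tendsto_atTop]
  intro ε hε
  obtain ⟨n, hn⟩ := (hq0.eventually (gt_mem_nhds (show (0 : ℝ) < ε / 2 by linarith))).exists
  have h1 := (s n).dL B hB
  have h2 := h1.union (s n).disj ((s n).dQ B hB)
  have hl := (s n).hl
  have hlq := (s n).hlq
  have e1 : ∀ᶠ m in atTop, (s n).l - ε / 2 < ratio B (s n).L m :=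
    h1.eventually (lt_mem_nhds (by linarith))
  have e2 : ∀ᶠ m in atTop, ratio B ((s n).L ∪ (s n).Q) m < (s n).l + (s n).q + ε / 2 :=
    h2.eventually (gt_mem_nhds (by linarith))
  obtain ⟨N, hN⟩ := Filter.eventually_atTop.1 (e1.and e2)
  refine ⟨N, fun m hm => ?_⟩
  obtain ⟨h3, h4⟩ := hN m hm
  have hmono : ∀ A C : Set ℕ, A ⊆ C → ratio B A m ≤ ratio B C m := by
    intro A C hAC
    unfold ratio
    apply div_le_div_of_nonneg_right _ (by positivity)
    exact_mod_cast cnt_mono_set (Set.inter_subset_inter_left B hAC) m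
  have h5 := hmono _ _ (hS1 n)
  have h6 := hmono _ _ (hS2 n)
  rw [Real.dist_eq, abs_lt]
  constructor <;> linarith

/-! ### Finite families -/

theorem half_of_finite (R : Set (Set ℕ)) (hR : ∀ B ∈ R, B.Infinite) (hfin : R.Finite) :
    ∃ S : Set ℕ, ∀ B ∈ R, D B S (1 / 2) := by
  classical
  let F := hfin.toFinset
  let τ : ℕ → Finset (Set ℕ) := fun m => F.filter (fun B => m ∈ B)
  let S : Set ℕ := {m | Even (cnt {k | τ k = τ m} m)}
  have key : ∀ (T : Finset (Set ℕ)) (n : ℕ),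
      cnt (S ∩ {k | τ k = T}) n = (cnt {k | τ k = T} n + 1) / 2 := by
    intro T n
    induction n with
    | zero => simp [cnt]
    | succ n ih =>
      rw [cnt_succ, cnt_succ, ih]
      by_cases h : τ n = T
      · have h1 : n ∈ S ↔ Even (cnt {k | τ k = T} n) := by
          show Even (cnt {k | τ k = τ n} n) ↔ _
          rw [h]
        have h2 : n ∈ {k | τ k = T} := h
        by_cases he : Even (cnt {k | τ k = T} n)
        · rw [if_pos (show n ∈ S ∩ {k | τ k = T} from ⟨h1.2 he, h2⟩), if_pos h2]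
          obtain ⟨j, hj⟩ := he
          omega
        · rw [if_neg (fun hc : n ∈ S ∩ {k | τ k = T} => he (h1.1 hc.1)), if_pos h2]
          rw [Nat.not_even_iff_odd] at he
          obtain ⟨j, hj⟩ := he
          omega
      · have h2 : n ∉ {k | τ k = T} := h
        rw [if_neg (fun hc : n ∈ S ∩ {k | τ k = T} => h2 hc.2), if_neg h2]
        simp
  refine ⟨S, fun B hB => ?_⟩
  have hBF : B ∈ F := hfin.mem_toFinset.2 hB
  -- decomposition of the counting function of a set inside `B`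
  have hdec : ∀ (A : Set ℕ) (n : ℕ),
      cnt (A ∩ B) n = ∑ T ∈ F.powerset.filter (fun T => B ∈ T), cnt (A ∩ {k | τ k = T}) n := by
    intro A n
    induction n with
    | zero => simp [cnt]
    | succ n ih =>
      simp_rw [cnt_succ, Finset.sum_add_distrib]
      rw [ih]
      congr 1
      by_cases hA : n ∈ A
      · by_cases hnB : n ∈ B
        · rw [if_pos ⟨hA, hnB⟩]
          have hmem : τ n ∈ F.powerset.filter (fun T => B ∈ T) :=
            Finset.mem_filter.2 ⟨Finset.mem_powerset.2 (Finset.filter_subset _ _),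
              Finset.mem_filter.2 ⟨hBF, hnB⟩⟩
          rw [Finset.sum_eq_single_of_mem _ hmem]
          · rw [if_pos ⟨hA, rfl⟩]
          · intro T _ hT
            rw [if_neg]
            rintro ⟨-, h⟩
            exact hT h.symm
        · rw [if_neg (fun h => hnB h.2)]
          symm
          apply Finset.sum_eq_zero
          intro T hT
          rw [if_neg]
          rintro ⟨-, h⟩
          have h' : τ n = T := h
          rw [← h'] at hT
          exact hnB (Finset.mem_filter.1 (Finset.mem_filter.1 hT).2).2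
      · rw [if_neg (fun h => hA h.1)]
        symm
        apply Finset.sum_eq_zero
        intro T _
        rw [if_neg (fun h => hA h.1)]
  set C := (F.powerset.filter (fun T => B ∈ T)).card with hC
  have hup : ∀ n, cnt B n ≤ 2 * cnt (S ∩ B) n ∧ 2 * cnt (S ∩ B) n ≤ cnt B n + C := by
    intro n
    have e1 := hdec S n
    have e2 := hdec Set.univ n
    rw [Set.univ_inter] at e2
    simp_rw [Set.univ_inter] at e2
    simp_rw [key] at e1
    constructor
    · rw [e1, e2, Finset.mul_sum]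
      apply Finset.sum_le_sum
      intro T _
      omega
    · rw [e1, e2, Finset.mul_sum, hC, Finset.card_eq_sum_ones, ← Finset.sum_add_distrib]
      apply Finset.sum_le_sum
      intro T _
      omega
  have hlim : Tendsto (fun n => (1 : ℝ) / 2 + (C : ℝ) / cnt B n) atTop (𝓝 (1 / 2)) := by
    have h1 : Tendsto (fun n => (C : ℝ) / cnt B n) atTop (𝓝 0) :=
      tendsto_const_nhds.div_atTop (tendsto_natCast_atTop_atTop.comp (cnt_tendsto (hR B hB)))
    have h2 := h1.const_add (1 / 2)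
    rwa [add_zero] at h2
  refine tendsto_of_tendsto_of_tendsto_of_le_of_le' tendsto_const_nhds hlim ?_ ?_
  · filter_upwards [(cnt_tendsto (hR B hB)).eventually (Filter.eventually_gt_atTop 0)] with n hn
    have h1 : (0 : ℝ) < cnt B n := by exact_mod_cast hn
    have h2 : (cnt B n : ℝ) ≤ 2 * cnt (S ∩ B) n := by exact_mod_cast (hup n).1
    unfold ratio
    rw [le_div_iff₀ h1]
    linarith
  · filter_upwards [(cnt_tendsto (hR B hB)).eventually (Filter.eventually_gt_atTop 0)] with n hn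
    have h1 : (0 : ℝ) < cnt B n := by exact_mod_cast hn
    have h2 : (2 * cnt (S ∩ B) n : ℝ) ≤ cnt B n + C := by exact_mod_cast (hup n).2
    have h3 : (0 : ℝ) ≤ C := by positivity
    unfold ratio
    rw [div_le_iff₀ h1, add_mul, div_mul_cancel₀ _ h1.ne']
    linarith

/-! ### The equality -/

theorem mem_half {B A : Set ℕ} : dens B A ∈ ({some (1 / 2)} : Set (Option ℝ)) ↔ D B A (1 / 2) := by
  rw [Set.mem_singleton_iff, dens_eq_some]

theorem mem_Ioo {B A : Set ℕ} : dens B A ∈ (some '' Set.Ioo (0 : ℝ) 1) ↔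
    ∃ ρ : ℝ, 0 < ρ ∧ ρ < 1 ∧ D B A ρ := by
  constructor
  · rintro ⟨ρ, ⟨h0, h1⟩, h⟩
    exact ⟨ρ, h0, h1, dens_eq_some.1 h.symm⟩
  · rintro ⟨ρ, h0, h1, h⟩
    exact ⟨ρ, ⟨h0, h1⟩, (dens_eq_some.2 h).symm⟩

theorem D_self {S : Set ℕ} (hS : S.Infinite) : D S S 1 := by
  refine tendsto_const_nhds.congr' ?_
  filter_upwards [(cnt_tendsto hS).eventually (Filter.eventually_gt_atTop 0)] with n hn
  unfold ratio
  rw [Set.inter_self, div_self]
  exact_mod_cast hn.ne'

/-- The `1/2`-reaping number equals the `(0,1)`-reaping number. -/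
theorem result : reaping {some (1 / 2)} = reaping (some '' Set.Ioo (0 : ℝ) 1) := by
  have hne : {κ | ∃ R : Set (Set ℕ), (∀ B ∈ R, B.Infinite) ∧
      (∀ S : Set ℕ, S.Infinite → Sᶜ.Infinite → ∃ B ∈ R,
        dens B S ∉ (some '' Set.Ioo (0 : ℝ) 1)) ∧ #R = κ}.Nonempty := by
    refine ⟨_, {B | B.Infinite}, fun B hB => hB, fun S hS _ => ⟨S, hS, ?_⟩, rfl⟩
    rw [mem_Ioo]
    rintro ⟨ρ, -, h1, h⟩
    have := tendsto_nhds_unique h (D_self hS)
    linarith
  apply le_antisymm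
  · -- monotonicity
    apply le_csInf hne
    rintro κ ⟨R, hR, hS, rfl⟩
    apply csInf_le'
    refine ⟨R, hR, fun S h1 h2 => ?_, rfl⟩
    obtain ⟨B, hB, hd⟩ := hS S h1 h2
    refine ⟨B, hB, fun h => hd ?_⟩
    rw [mem_half] at h
    rw [mem_Ioo]
    exact ⟨1 / 2, by norm_num, by norm_num, h⟩
  · have hne2 : {κ | ∃ R : Set (Set ℕ), (∀ B ∈ R, B.Infinite) ∧
        (∀ S : Set ℕ, S.Infinite → Sᶜ.Infinite → ∃ B ∈ R,
          dens B S ∉ ({some (1 / 2)} : Set (Option ℝ))) ∧ #R = κ}.Nonempty := by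
      obtain ⟨κ, R, hR, hS, h⟩ := hne
      refine ⟨κ, R, hR, fun S h1 h2 => ?_, h⟩
      obtain ⟨B, hB, hd⟩ := hS S h1 h2
      refine ⟨B, hB, fun h => hd ?_⟩
      rw [mem_half] at h
      rw [mem_Ioo]
      exact ⟨1 / 2, by norm_num, by norm_num, h⟩
    apply le_csInf hne2
    rintro κ ⟨R, hR, hS, rfl⟩
    by_contra hlt
    rw [not_le] at hlt
    -- a set with density `1/2` in all members of `R`
    have hhalf : ∃ S : Set ℕ, ∀ B ∈ R, D B S (1 / 2) := by
      rcases lt_or_ge (#R) ℵ₀ with hf | hinf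
      · exact half_of_finite R hR (lt_aleph0_iff_set_finite.1 hf)
      · apply half_of_small hinf _ R hR le_rfl
        intro R' hR' hc'
        by_contra hcon
        push Not at hcon
        have : reaping (some '' Set.Ioo (0 : ℝ) 1) ≤ #R' := by
          apply csInf_le'
          refine ⟨R', hR', fun S _ _ => ?_, rfl⟩
          obtain ⟨B, hB, hd⟩ := hcon S
          refine ⟨B, hB, fun h => ?_⟩
          rw [mem_Ioo] at h
          obtain ⟨ρ, h0, h1, h2⟩ := h
          exact hd ρ h0 h1 h2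
        exact absurd (this.trans hc') (not_le.2 hlt)
    obtain ⟨S, hSd⟩ := hhalf
    rcases R.eq_empty_or_nonempty with rfl | ⟨B0, hB0⟩
    · obtain ⟨B, hB, -⟩ := hS {n | Even n}
        (Set.infinite_of_injective_forall_mem (f := fun n : ℕ => 2 * n)
          (fun a b h => by simpa using h) (fun n => by simp))
        (Set.infinite_of_injective_forall_mem (f := fun n : ℕ => 2 * n + 1)
          (fun a b h => by simpa using h) (fun n => by simp))
      exact hB
    · have h1 : S.Infinite := ((hSd B0 hB0).infinite_inter (hR B0 hB0) (by norm_num)).mono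
        Set.inter_subset_left
      have h2 : Sᶜ.Infinite := (((hSd B0 hB0).compl (hR B0 hB0)).infinite_inter (hR B0 hB0)
        (by norm_num)).mono Set.inter_subset_left
      obtain ⟨B, hB, hd⟩ := hS S h1 h2
      apply hd
      rw [mem_half]
      exact hSd B hB

end Pool.Agent.Results.MP_5d23e6_lc.HalfReaping
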